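import Pool.Agent.J4H60.IF.Stm

set_option autoImplicit false

namespace Pool.Agent.J4H46.IF

open Finset
open Pool.Agent.J4H60.IF

lemma compl_card (X : V) : (Xᶜ).card = 7 - X.card := by
  rw [card_compl]; simp

lemma exactly_one (F : Finset V) (hc : F.card = 64)
    (hi : ∀ X ∈ F, ∀ Y ∈ F, X ≠ Y → ¬ Disjoint X Y) (X : V) : X ∈ F ↔ Xᶜ ∉ F := by
  have hne : ∀ Z : V, Z ≠ Zᶜ := by
    intro Z h
    have h1 := compl_card Z
    rw [← h] at h1
    have h2 : Z.card ≤ 7 := by simpa using card_le_univ Z
    omega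
  have hnot : ∀ Z : V, Z ∈ F → Zᶜ ∉ F := by
    intro Z h1 h2
    exact hi Z h1 Zᶜ h2 (hne Z) disjoint_compl_right
  constructor
  · exact hnot X
  · intro h
    by_contra hX
    have hdis : Disjoint F (F.image compl) := by
      rw [disjoint_left]
      intro Z hZ hZ'
      rw [mem_image] at hZ'
      obtain ⟨W, hW, rfl⟩ := hZ'
      exact hnot W hW hZ
    have hcard : (F ∪ F.image compl).card = 128 := by
      rw [card_union_of_disjoint hdis, card_image_of_injective _ compl_injective, hc]
    have huniv : F ∪ F.image compl = univ := by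
      apply eq_univ_of_card
      rw [hcard]
      simp [V, Fintype.card_finset]
    have hmem : X ∈ F ∪ F.image compl := by rw [huniv]; exact mem_univ _
    rw [mem_union, mem_image] at hmem
    rcases hmem with h1 | ⟨W, hW, hWX⟩
    · exact hX h1
    · apply h
      rw [← hWX, compl_compl]
      exact hW

lemma key (A : Finset V) (hA : ∀ X ∈ A, 3 ≤ X.card) (F : Finset V) (hF : F ⊆ A)
    (hc : F.card = 64) (hi : ∀ X ∈ F, ∀ Y ∈ F, X ≠ Y → ¬ Disjoint X Y) (X : V) :
    X ∈ F ↔ (X ∈ F.filter (fun X => X.card = 3)) ∨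
      (4 ≤ X.card ∧ Xᶜ ∉ F.filter (fun X => X.card = 3)) := by
  have h7 : X.card ≤ 7 := by simpa using card_le_univ X
  constructor
  · intro h
    have h3 := hA X (hF h)
    rcases Nat.lt_or_ge 3 X.card with h4 | h4
    · right
      refine ⟨h4, fun h5 => ?_⟩
      exact (exactly_one F hc hi X).1 h (mem_filter.1 h5).1
    · left
      exact mem_filter.2 ⟨h, by omega⟩
  · rintro (h | ⟨h4, h5⟩)
    · exact (mem_filter.1 h).1
    · rw [exactly_one F hc hi X]
      intro h6
      apply h5
      have h3 := hA _ (hF h6)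
      refine mem_filter.2 ⟨h6, ?_⟩
      have := compl_card X
      omega

theorem t_I : S_I := by
  intro A hA _
  unfold cnt ind
  apply card_le_card_of_injOn (fun F => F.filter (fun X => X.card = 3))
  · intro F hF
    rw [mem_coe, mem_filter, mem_powersetCard] at hF
    rw [mem_coe, mem_filter, mem_powerset]
    exact ⟨filter_subset_filter _ hF.1.1,
      fun X hX Y hY => hF.2 X (mem_filter.1 hX).1 Y (mem_filter.1 hY).1⟩
  · intro F hF F' hF' hEq
    rw [mem_coe, mem_filter, mem_powersetCard] at hF hF'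
    have hEq' : F.filter (fun X => X.card = 3) = F'.filter (fun X => X.card = 3) := hEq
    ext X
    rw [key A hA F hF.1.1 hF.1.2 hF.2 X, key A hA F' hF'.1.1 hF'.1.2 hF'.2 X, hEq']

end Pool.Agent.J4H46.IF
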